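import Pool.Agent.H619.CS.St

/-!
# Affine invariance of volume, centroid and symmetric part
-/

set_option autoImplicit false

open MeasureTheory Set

open scoped ENNReal

namespace Pool.Agent.H619.CS

theorem aff : S_AFF := by
  intro E F _ _ _ _ _ _ _ _ _ _ μ _ ν _ e b
  -- the homeomorphism
  let h : E ≃ₜ F := e.toHomeomorph.trans (Homeomorph.addRight b)
  let M : E ≃ᵐ F := h.toMeasurableEquiv
  have hM : ∀ x, M x = e x + b := fun x => rfl
  have hMs : ∀ y, M.symm y = e.symm (y + -b) := fun y => rfl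
  have hν1 : (ν.map e.symm).IsAddHaarMeasure := e.symm.isAddHaarMeasure_map ν
  have hmap : ν.map M.symm = ν.map e.symm := by
    have e1 : (M.symm : F → E) = (e.symm : F → E) ∘ fun y => y + -b := by
      funext y
      exact hMs y
    rw [e1, ← Measure.map_map e.symm.continuous.measurable (measurable_add_const _),
      map_add_right_eq_self]
  have hsm : ν.map e.symm = Measure.addHaarScalarFactor (ν.map e.symm) μ • μ :=
    Measure.isAddLeftInvariant_eq_smul _ _
  set c : NNReal := Measure.addHaarScalarFactor (ν.map e.symm) μ with hc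
  have hc0 : 0 < c := Measure.addHaarScalarFactor_pos_of_isAddHaarMeasure _ _
  have hms : ν.map M.symm = (c : ℝ≥0∞) • μ := by
    rw [hmap, hsm]
    rfl
  have hvol : ∀ S : Set E, ν ((fun x => e x + b) '' S) = (c : ℝ≥0∞) * μ S := by
    intro S
    have e1 : (fun x => e x + b) '' S = M.symm ⁻¹' S := by
      rw [← MeasurableEquiv.image_eq_preimage_symm]
      rfl
    rw [e1, ← M.symm.map_apply, hms, Measure.smul_apply, smul_eq_mul]
  refine ⟨c, by exact_mod_cast hc0.ne', ENNReal.coe_ne_top, hvol, fun K hK hK0 => ?_⟩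
  have hKt : μ K ≠ ⊤ := hK.measure_lt_top.ne
  have hcen : cen ν ((fun x => e x + b) '' K) = e (cen μ K) + b := by
    have e1 : (fun x => e x + b) '' K = M.symm ⁻¹' K := by
      rw [← MeasurableEquiv.image_eq_preimage_symm]
      rfl
    have e2 : ∫ y in (fun x => e x + b) '' K, y ∂ν = (c : ℝ) • ∫ x in K, (e x + b) ∂μ := by
      have e3 := setIntegral_map_equiv (μ := ν) M.symm (fun x => e x + b) K
      rw [hms, Measure.restrict_smul, integral_smul_measure] at e3
      rw [e1]
      have e4 : ∀ y, e (M.symm y) + b = y := fun y => M.apply_symm_apply y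
      simp only [e4] at e3
      rw [← e3]
      rfl
    have i1 : IntegrableOn (fun x : E => x) K μ := continuous_id.continuousOn.integrableOn_compact hK
    have i2 : IntegrableOn (fun x : E => e x) K μ := e.continuous.continuousOn.integrableOn_compact hK
    have i3 : IntegrableOn (fun _ : E => b) K μ :=
      continuous_const.continuousOn.integrableOn_compact hK
    have e5 : ∫ x in K, (e x + b) ∂μ = e (∫ x in K, x ∂μ) + (μ K).toReal • b := by
      rw [integral_add i2 i3, setIntegral_const]
      congr 1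
      exact e.toContinuousLinearMap.integral_comp_comm i1
    have hm : (μ K).toReal ≠ 0 := (ENNReal.toReal_pos hK0 hKt).ne'
    have hc1 : (c : ℝ) ≠ 0 := by exact_mod_cast hc0.ne'
    unfold cen
    rw [e2, e5, hvol, ENNReal.toReal_mul, ENNReal.coe_toReal, map_smul, smul_smul, smul_add,
      smul_smul]
    have a1 : ((c : ℝ) * (μ K).toReal)⁻¹ * (c : ℝ) = (μ K).toReal⁻¹ := by
      field_simp
    have a2 : (μ K).toReal⁻¹ * (μ K).toReal = 1 := inv_mul_cancel₀ hm
    rw [a1, a2, one_smul]
  refine ⟨hcen, ?_⟩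
  unfold symv
  rw [hcen, ← hvol]
  congr 1
  ext y
  constructor
  · rintro ⟨⟨x, hx, rfl⟩, ⟨x', hx', hxx⟩⟩
    refine ⟨x, ⟨hx, ?_⟩, rfl⟩
    have : x' = (2 : ℝ) • cen μ K - x := by
      apply e.injective
      have h1 : e x' + b = (2 : ℝ) • (e (cen μ K) + b) - (e x + b) := hxx
      rw [map_sub, map_smul]
      have h2 : e x' = (2 : ℝ) • (e (cen μ K) + b) - (e x + b) - b := eq_sub_of_add_eq h1
      rw [h2, smul_add, two_smul ℝ b]
      abel
    rw [← this]
    exact hx'
  · rintro ⟨x, ⟨hx, hx'⟩, rfl⟩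
    refine ⟨⟨x, hx, rfl⟩, ⟨_, hx', ?_⟩⟩
    show e ((2 : ℝ) • cen μ K - x) + b = (2 : ℝ) • (e (cen μ K) + b) - (e x + b)
    rw [map_sub, map_smul, smul_add, two_smul ℝ b]
    abel

end Pool.Agent.H619.CS
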