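import Pool.Agent.H619.CS.St

set_option autoImplicit false

open MeasureTheory Set

open scoped ENNReal

namespace Pool.Agent.H619.CS.SIM

variable {n : ℕ}

theorem lin {v : Fin (n + 1) → EuclideanSpace ℝ (Fin n)} (hv : AffineIndependent ℝ v) :
    LinearIndependent ℝ fun i : Fin n => v i.succ - v 0 := by
  have h := (affineIndependent_iff_linearIndependent_vsub ℝ v 0).mp hv
  have h2 := h.comp (fun i : Fin n => (⟨i.succ, Fin.succ_ne_zero i⟩ : {x : Fin (n + 1) // x ≠ 0}))
    (fun i j hij => by
      have := congrArg Subtype.val hij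
      exact Fin.succ_injective n this)
  exact h2

theorem pos {v : Fin (n + 1) → EuclideanSpace ℝ (Fin n)} (hv : AffineIndependent ℝ v) :
    (volume : Measure (EuclideanSpace ℝ (Fin n))) (convexHull ℝ (range v)) ≠ 0 := by
  have h1 : affineSpan ℝ (range v) = ⊤ := by
    rw [hv.affineSpan_eq_top_iff_card_eq_finrank_add_one]
    simp
  have h2 : (interior (convexHull ℝ (range v))).Nonempty :=
    interior_convexHull_nonempty_iff_affineSpan_eq_top.mpr h1
  exact (Measure.measure_pos_of_nonempty_interior _ h2).ne'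

end Pool.Agent.H619.CS.SIM

namespace Pool.Agent.H619.CS

theorem sim (aff : S_AFF) : S_SIM := by
  intro n v v' hv hv'
  let B := Module.Basis.mk (SIM.lin hv) (by rw [(SIM.lin hv).span_eq_top_of_card_eq_finrank' (by simp)])
  let B' := Module.Basis.mk (SIM.lin hv') (by rw [(SIM.lin hv').span_eq_top_of_card_eq_finrank' (by simp)])
  have hB : ∀ i, B i = v i.succ - v 0 := fun i => by simp [B]
  have hB' : ∀ i, B' i = v' i.succ - v' 0 := fun i => by simp [B']
  let e : EuclideanSpace ℝ (Fin n) ≃L[ℝ] EuclideanSpace ℝ (Fin n) :=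
    (B.equiv B' (Equiv.refl _)).toContinuousLinearEquiv
  have he : ∀ i : Fin n, e (v i.succ - v 0) = v' i.succ - v' 0 := by
    intro i
    have : (B.equiv B' (Equiv.refl _)) (B i) = B' i := by simp
    rw [hB, hB'] at this
    exact this
  let b : EuclideanSpace ℝ (Fin n) := v' 0 - e (v 0)
  have hA : ∀ i, e (v i) + b = v' i := by
    intro i
    refine Fin.cases ?_ (fun j => ?_) i
    · simp [b]
    · have h := he j
      rw [map_sub] at h
      have h2 : e (v j.succ) = v' j.succ - v' 0 + e (v 0) := by rw [← h]; abel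
      rw [h2]
      simp [b]
  have hK : (fun x => e x + b) '' convexHull ℝ (range v) = convexHull ℝ (range v') := by
    let f : EuclideanSpace ℝ (Fin n) →ᵃ[ℝ] EuclideanSpace ℝ (Fin n) :=
      (e.toLinearEquiv.toLinearMap.toAffineMap) + AffineMap.const ℝ _ b
    have hf : ∀ x, f x = e x + b := fun x => rfl
    have h1 := f.image_convexHull (range v)
    have h2 : f '' range v = range v' := by
      rw [← range_comp]
      congr 1
      funext i
      rw [Function.comp_apply, hf, hA]
    rw [h2] at h1
    rw [← h1]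
    rfl
  obtain ⟨κ, -, -, hκ, hc⟩ := aff (EuclideanSpace ℝ (Fin n)) (EuclideanSpace ℝ (Fin n)) volume volume e b
  have hcomp : IsCompact (convexHull ℝ (range v)) := (finite_range v).isCompact_convexHull ℝ
  have h3 := (hc _ hcomp (SIM.pos hv)).2
  have h4 := hκ (convexHull ℝ (range v))
  rw [hK] at h3 h4
  rw [h3, h4]
  ring

end Pool.Agent.H619.CS
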