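import Pool.Agent.H619.CS.St

set_option autoImplicit false

open MeasureTheory Set

open scoped ENNReal

namespace Pool.Agent.H619.CS

namespace IND

/-- the conclusion -/
def Con (n : ℕ) (v : Fin (n + 1) → EuclideanSpace ℝ (Fin n))
    (K : Set (EuclideanSpace ℝ (Fin n))) : Prop :=
  symv volume (convexHull ℝ (range v)) * volume K ≤
      symv volume K * volume (convexHull ℝ (range v))

lemma base (sim : S_SIM) (n : ℕ) (v : Fin (n + 1) → EuclideanSpace ℝ (Fin n))
    (hv : AffineIndependent ℝ v) (w : Fin (n + 2) → EuclideanSpace ℝ (Fin n))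
    (α : Fin (n + 2) → ℝ) (hs : affineSpan ℝ (range w) = ⊤) (h1 : ∑ i, α i = 0)
    (h2 : ∑ i, α i • w i = 0) (i : Fin (n + 2)) (hi : 0 < α i) (hj : ∀ j, j ≠ i → α j ≤ 0) :
    Con n v (convexHull ℝ (range w)) := by
  have e1 : ∑ j : Fin (n + 1), (-(α (i.succAbove j)) / α i) = 1 := by
    rw [Fin.sum_univ_succAbove _ i] at h1
    rw [← Finset.sum_div, Finset.sum_neg_distrib, div_eq_one_iff_eq hi.ne']
    linarith
  have e2 : ∑ j : Fin (n + 1), (-(α (i.succAbove j)) / α i) • w (i.succAbove j) = w i := by
    rw [Fin.sum_univ_succAbove _ i] at h2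
    have e3 : ∑ j : Fin (n + 1), α (i.succAbove j) • w (i.succAbove j) = -(α i • w i) := by
      rw [eq_neg_iff_add_eq_zero, add_comm]; exact h2
    have e4 : ∀ j : Fin (n + 1), (-(α (i.succAbove j)) / α i) • w (i.succAbove j) =
        (-(α i)⁻¹) • (α (i.succAbove j) • w (i.succAbove j)) := by
      intro j
      rw [smul_smul]
      congr 1
      ring
    rw [Finset.sum_congr rfl (fun j _ => e4 j), ← Finset.smul_sum, e3, smul_neg, neg_smul, neg_neg,
      smul_smul, inv_mul_cancel₀ hi.ne', one_smul]
  have hmem : w i ∈ convexHull ℝ (range (fun j => w (i.succAbove j))) := by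
    rw [← e2]
    exact (convex_convexHull ℝ _).sum_mem
      (fun j _ => div_nonneg (neg_nonneg.2 (hj _ (Fin.succAbove_ne i j))) hi.le) e1
      (fun j _ => subset_convexHull ℝ _ (mem_range_self j))
  have hsub : range w ⊆ convexHull ℝ (range (fun j => w (i.succAbove j))) := by
    rintro _ ⟨h, rfl⟩
    rcases Fin.eq_self_or_eq_succAbove i h with rfl | ⟨j, rfl⟩
    · exact hmem
    · exact subset_convexHull ℝ _ (mem_range_self j)
  have hsub2 : range (fun j => w (i.succAbove j)) ⊆ range w := by
    rintro _ ⟨j, rfl⟩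
    exact mem_range_self _
  have hhull : convexHull ℝ (range w) = convexHull ℝ (range (fun j => w (i.succAbove j))) :=
    Subset.antisymm (convexHull_min hsub (convex_convexHull ℝ _)) (convexHull_mono hsub2)
  have hspan : affineSpan ℝ (range (fun j => w (i.succAbove j))) = ⊤ := by
    rw [eq_top_iff, ← hs]
    exact affineSpan_le.2 (hsub.trans (convexHull_subset_affineSpan _))
  have hind : AffineIndependent ℝ (fun j => w (i.succAbove j)) := by
    rw [affineIndependent_iff_finrank_vectorSpan_eq ℝ _ (n := n) (by simp),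
      AffineSubspace.vectorSpan_eq_top_of_affineSpan_eq_top ℝ _ _ hspan, finrank_top]
    simp
  unfold Con
  rw [hhull]
  exact (sim n v _ hv hind).le

lemma sum_split {n : ℕ} {G : Type} [AddCommMonoid G] (i j : Fin (n + 2)) (hij : j ≠ i)
    (f : Fin (n + 2) → G) :
    ∑ h, f h = f i + (f j + ∑ h : {h : Fin (n + 2) // h ≠ i ∧ h ≠ j}, f h) := by
  classical
  rw [← Finset.add_sum_erase Finset.univ f (Finset.mem_univ i),
    ← Finset.add_sum_erase (Finset.univ.erase i) f (a := j)
      (Finset.mem_erase.2 ⟨hij, Finset.mem_univ _⟩)]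
  congr 2
  apply Finset.sum_subtype
  intro x
  simp only [Finset.mem_erase, Finset.mem_univ, and_true]
  tauto

lemma step (st : S_STEP) (n : ℕ) (v : Fin (n + 1) → EuclideanSpace ℝ (Fin n))
    (w : Fin (n + 2) → EuclideanSpace ℝ (Fin n))
    (α : Fin (n + 2) → ℝ) (hs : affineSpan ℝ (range w) = ⊤) (h1 : ∑ i, α i = 0)
    (h2 : ∑ i, α i • w i = 0) (i j : Fin (n + 2)) (hij : j ≠ i) (hi : 0 < α i) (hj : 0 < α j)
    (ih : ∀ (w' : Fin (n + 2) → EuclideanSpace ℝ (Fin n)) (α' : Fin (n + 2) → ℝ),
      affineSpan ℝ (range w') = ⊤ → α' ≠ 0 → ∑ i, α' i = 0 → ∑ i, α' i • w' i = 0 →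
      (Finset.univ.filter (fun h => 0 < α' h)) = (Finset.univ.filter (fun h => 0 < α h)).erase i →
      Con n v (convexHull ℝ (range w'))) :
    Con n v (convexHull ℝ (range w)) := by
  classical
  set s : ℝ := α i + α j with hsdef
  have hs0 : 0 < s := by positivity
  set c : EuclideanSpace ℝ (Fin n) := s⁻¹ • (α i • w i + α j • w j) with hc
  set U : EuclideanSpace ℝ (Fin n) := w i - w j with hU
  set l : ℝ := α i / s with hl
  have hl0 : 0 ≤ l := by positivity
  have hl1 : l ≤ 1 := by rw [hl, div_le_one hs0]; linarith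
  have hlj : 1 - l = α j / s := by rw [hl]; field_simp; rw [hsdef]; ring
  have wj : c - l • U = w j := by
    have : c - l • U = (s⁻¹ * α i - l) • w i + (s⁻¹ * α j + l) • w j := by
      rw [hc, hU]; module
    rw [this, show s⁻¹ * α i - l = 0 by rw [hl]; ring,
      show s⁻¹ * α j + l = 1 by rw [hl]; field_simp; rw [hsdef]; ring]
    simp
  have wi : c + (1 - l) • U = w i := by
    have : c + (1 - l) • U = (c - l • U) + U := by module
    rw [this, wj, hU]; abel
  set ι : Type := {h : Fin (n + 2) // h ≠ i ∧ h ≠ j} with hι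
  set v' : ι → EuclideanSpace ℝ (Fin n) := fun h => w h with hv'
  have k1 := sum_split i j hij α
  have k2 := sum_split i j hij (fun h => α h • w h)
  rw [h1] at k1
  rw [h2] at k2
  have hsum : ∑ h : ι, α h = -s := by
    have : (0 : ℝ) = α i + (α j + ∑ h : ι, α h) := k1
    rw [hsdef]; linarith
  have hne : Nonempty ι := by
    by_contra hcon
    rw [not_nonempty_iff] at hcon
    rw [Finset.univ_eq_empty, Finset.sum_empty] at hsum
    linarith
  have hcsum : ∑ h : ι, (-(α h) / s) • v' h = c := by
    have e4 : ∀ h : ι, (-(α h) / s) • v' h = (-s⁻¹) • (α h • w h) := by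
      intro h
      rw [smul_smul]
      congr 1
      ring
    have e5 : ∑ h : ι, α h • w h = -(α i • w i + α j • w j) := by
      have : (0 : EuclideanSpace ℝ (Fin n)) = α i • w i + (α j • w j + ∑ h : ι, α h • w h) := k2
      rw [eq_neg_iff_add_eq_zero, add_comm, add_assoc]; exact this.symm
    rw [Finset.sum_congr rfl (fun h _ => e4 h), ← Finset.smul_sum, e5, hc]
    module
  have hw1 : ∑ h : ι, (-(α h) / s) = 1 := by
    rw [← Finset.sum_div, Finset.sum_neg_distrib, hsum]
    field_simp
  have hcmem : c ∈ affineSpan ℝ (range v') := by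
    rw [← hcsum, ← Finset.affineCombination_eq_linear_combination _ _ _ hw1]
    exact affineCombination_mem_affineSpan hw1 v'
  set D : Submodule ℝ (EuclideanSpace ℝ (Fin n)) := vectorSpan ℝ (range v') with hD
  have hsup : D ⊔ Submodule.span ℝ {U} = ⊤ := by
    rw [eq_top_iff, ← AffineSubspace.vectorSpan_eq_top_of_affineSpan_eq_top ℝ _ _ hs, vectorSpan_def,
      Submodule.span_le]
    have hU' : U ∈ D ⊔ Submodule.span ℝ {U} :=
      Submodule.mem_sup_right (Submodule.mem_span_singleton_self U)
    have hall : ∀ a, w a - c ∈ D ⊔ Submodule.span ℝ {U} := by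
      intro a
      by_cases hai : a = i
      · subst hai
        have : w a - c = (1 - l) • U := by rw [← wi]; abel
        rw [this]
        exact Submodule.smul_mem _ _ hU'
      by_cases haj : a = j
      · subst haj
        have : w a - c = (-l) • U := by rw [← wj]; module
        rw [this]
        exact Submodule.smul_mem _ _ hU'
      · apply Submodule.mem_sup_left
        rw [hD, ← direction_affineSpan]
        exact AffineSubspace.vsub_mem_direction
          (subset_affineSpan ℝ _ (mem_range_self (⟨a, hai, haj⟩ : ι))) hcmem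
    rintro _ ⟨_, ⟨a, rfl⟩, _, ⟨b, rfl⟩, rfl⟩
    have : w a -ᵥ w b = (w a - c) - (w b - c) := by simp
    show w a -ᵥ w b ∈ D ⊔ Submodule.span ℝ {U}
    rw [this]
    exact Submodule.sub_mem _ (hall a) (hall b)
  have hcard : Fintype.card ι = n := by
    have := sum_split i j hij (fun _ => (1 : ℕ))
    simp only [Finset.sum_const, Finset.card_univ, smul_eq_mul, mul_one, Fintype.card_fin] at this
    have h3 : n + 2 = 1 + (1 + Fintype.card ι) := this
    omega
  have hn1 : 1 ≤ n := by
    rw [← hcard]; exact Fintype.card_pos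
  have hfD : Module.finrank ℝ D ≤ n - 1 := finrank_vectorSpan_range_le ℝ v' (by rw [hcard]; omega)
  have hfE : Module.finrank ℝ (EuclideanSpace ℝ (Fin n)) = n := by simp
  have hfU : Module.finrank ℝ (Submodule.span ℝ {U}) ≤ 1 := by
    have := finrank_span_le_card (R := ℝ) ({U} : Set (EuclideanSpace ℝ (Fin n)))
    simpa using this
  have hdim := Submodule.finrank_sup_add_finrank_inf_eq D (Submodule.span ℝ {U})
  rw [hsup, finrank_top, hfE] at hdim
  have hinf : D ⊓ Submodule.span ℝ {U} = ⊥ := by
    rw [← Submodule.finrank_eq_zero]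
    omega
  have hcompl : IsCompl D (Submodule.span ℝ {U}) :=
    ⟨disjoint_iff.2 hinf, codisjoint_iff.2 hsup⟩
  have hU0 : U ≠ 0 := by
    intro h0
    have : Module.finrank ℝ (Submodule.span ℝ {U}) = 0 := by
      rw [h0]; simp
    omega
  obtain ⟨q1, q2⟩ := st ι _ volume v' c U l hl0 hl1 hcmem hcompl hU0
  -- the hull of `w`
  have r1 : convexHull ℝ (range w) = PP v' c U l := by
    unfold PP
    congr 1
    rw [wj, wi]
    ext x
    constructor
    · rintro ⟨a, rfl⟩
      by_cases hai : a = i
      · subst hai; right; right; rfl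
      by_cases haj : a = j
      · subst haj; right; left; rfl
      · left; exact ⟨⟨a, hai, haj⟩, rfl⟩
    · rintro (⟨a, rfl⟩ | (rfl | rfl))
      · exact mem_range_self _
      · exact mem_range_self _
      · exact mem_range_self _
  set w' : Fin (n + 2) → EuclideanSpace ℝ (Fin n) :=
    Function.update (Function.update w j c) i (c + U) with hw'
  have w'i : w' i = c + U := by rw [hw', Function.update_self]
  have w'j : w' j = c := by rw [hw', Function.update_of_ne hij, Function.update_self]
  have w'h : ∀ h, h ≠ i → h ≠ j → w' h = w h := by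
    intro h hi' hj'
    rw [hw', Function.update_of_ne hi', Function.update_of_ne hj']
  have r2 : convexHull ℝ (range w') = PP v' c U 0 := by
    unfold PP
    congr 1
    rw [zero_smul, sub_zero, sub_zero, one_smul]
    ext x
    constructor
    · rintro ⟨a, rfl⟩
      by_cases hai : a = i
      · subst hai; rw [w'i]; right; right; rfl
      by_cases haj : a = j
      · subst haj; rw [w'j]; right; left; rfl
      · rw [w'h a hai haj]; left; exact ⟨⟨a, hai, haj⟩, rfl⟩
    · rintro (⟨a, rfl⟩ | (rfl | rfl))
      · exact ⟨a, w'h _ a.2.1 a.2.2⟩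
      · exact ⟨j, w'j⟩
      · exact ⟨i, w'i⟩
  have hspan' : affineSpan ℝ (range w') = ⊤ := by
    rw [eq_top_iff, ← hs]
    apply affineSpan_le.2
    have m1 : c ∈ affineSpan ℝ (range w') := subset_affineSpan ℝ _ ⟨j, w'j⟩
    have m2 : c + U ∈ affineSpan ℝ (range w') := subset_affineSpan ℝ _ ⟨i, w'i⟩
    rintro _ ⟨a, rfl⟩
    by_cases hai : a = i
    · subst hai
      have := AffineMap.lineMap_mem (1 - l) m1 m2
      rw [AffineMap.lineMap_apply] at this
      simp only [vsub_eq_sub, vadd_eq_add, add_sub_cancel_left] at this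
      rw [← wi, add_comm c]
      exact this
    by_cases haj : a = j
    · subst haj
      have := AffineMap.lineMap_mem (-l) m1 m2
      rw [AffineMap.lineMap_apply] at this
      simp only [vsub_eq_sub, vadd_eq_add, add_sub_cancel_left] at this
      rw [← wj, sub_eq_add_neg, ← neg_smul, add_comm c]
      exact this
    · exact subset_affineSpan ℝ _ ⟨a, w'h a hai haj⟩
  set α' : Fin (n + 2) → ℝ := Function.update (Function.update α j s) i 0 with hα'
  have α'i : α' i = 0 := by rw [hα', Function.update_self]
  have α'j : α' j = s := by rw [hα', Function.update_of_ne hij, Function.update_self]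
  have α'h : ∀ h, h ≠ i → h ≠ j → α' h = α h := by
    intro h hi' hj'
    rw [hα', Function.update_of_ne hi', Function.update_of_ne hj']
  have g0 : α' ≠ 0 := by
    intro h0
    rw [h0] at α'j
    exact hs0.ne α'j
  have g1 : ∑ h, α' h = 0 := by
    rw [sum_split i j hij α', α'i, α'j, Finset.sum_congr rfl (fun h _ => α'h _ h.2.1 h.2.2)]
    have := hsum
    linarith
  have g2 : ∑ h, α' h • w' h = 0 := by
    rw [sum_split i j hij (fun h => α' h • w' h)]
    have e6 : ∀ h : ι, α' h • w' h = α h • w h := fun h => by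
      rw [α'h _ h.2.1 h.2.2, w'h _ h.2.1 h.2.2]
    rw [Finset.sum_congr rfl (fun h _ => e6 h)]
    show α' i • w' i + (α' j • w' j + _) = 0
    rw [α'i, α'j, w'j, zero_smul, zero_add, hc, smul_smul, mul_inv_cancel₀ hs0.ne', one_smul,
      add_assoc]
    exact k2.symm
  have g3 : (Finset.univ.filter (fun h => 0 < α' h)) =
      (Finset.univ.filter (fun h => 0 < α h)).erase i := by
    ext h
    simp only [Finset.mem_filter, Finset.mem_univ, true_and, Finset.mem_erase]
    by_cases hhi : h = i
    · subst hhi
      rw [α'i]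
      simp
    by_cases hhj : h = j
    · subst hhj
      rw [α'j]
      exact ⟨fun _ => ⟨hhi, hj⟩, fun _ => hs0⟩
    · rw [α'h h hhi hhj]
      exact ⟨fun hh => ⟨hhi, hh⟩, fun hh => hh.2⟩
  have hih := ih w' α' hspan' g0 g1 g2 g3
  unfold Con at hih ⊢
  rw [r1, q1]
  rw [r2] at hih
  exact hih.trans (by gcongr)

lemma core (sim : S_SIM) (st : S_STEP) (n : ℕ) (v : Fin (n + 1) → EuclideanSpace ℝ (Fin n))
    (hv : AffineIndependent ℝ v) :
    ∀ (k : ℕ) (w : Fin (n + 2) → EuclideanSpace ℝ (Fin n)) (α : Fin (n + 2) → ℝ),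
      affineSpan ℝ (range w) = ⊤ → α ≠ 0 → ∑ i, α i = 0 → ∑ i, α i • w i = 0 →
      (Finset.univ.filter (fun h => 0 < α h)).card = k → Con n v (convexHull ℝ (range w)) := by
  classical
  intro k
  induction k with
  | zero =>
    intro w α _ h0 h1 _ hk
    exfalso
    apply h0
    have hle : ∀ i ∈ (Finset.univ : Finset (Fin (n + 2))), α i ≤ 0 := by
      intro i _
      by_contra hi
      have : i ∈ (Finset.univ.filter (fun h => 0 < α h)) := by simpa using hi
      rw [Finset.card_eq_zero] at hk
      rw [hk] at this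
      simp at this
    funext i
    exact (Finset.sum_eq_zero_iff_of_nonpos hle).1 h1 i (Finset.mem_univ i)
  | succ k ih =>
    intro w α hs h0 h1 h2 hk
    rcases Nat.eq_zero_or_pos k with rfl | hkpos
    · rw [zero_add, Finset.card_eq_one] at hk
      obtain ⟨i, hi⟩ := hk
      have hi1 : 0 < α i := by
        have : i ∈ (Finset.univ.filter (fun h => 0 < α h)) := by rw [hi]; simp
        simpa using this
      apply base sim n v hv w α hs h1 h2 i hi1
      intro j hj
      by_contra hcon
      have : j ∈ (Finset.univ.filter (fun h => 0 < α h)) := by simpa using hcon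
      rw [hi, Finset.mem_singleton] at this
      exact hj this
    · obtain ⟨i, hi, j, hj, hij⟩ := Finset.one_lt_card.1 (by rw [hk]; omega)
      have hi1 : 0 < α i := by simpa using hi
      have hj1 : 0 < α j := by simpa using hj
      apply step st n v w α hs h1 h2 i j (Ne.symm hij) hi1 hj1
      intro w' α' a1 a2 a3 a4 a5
      apply ih w' α' a1 a2 a3 a4
      rw [a5, Finset.card_erase_of_mem hi, hk]
      rfl

end IND

open IND in
theorem ind (sim : S_SIM) (st : S_STEP) : S_IND := by
  classical
  intro n v w hv hint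
  have hs : affineSpan ℝ (range w) = ⊤ := interior_convexHull_nonempty_iff_affineSpan_eq_top.1 hint
  have hdep : ¬ AffineIndependent ℝ w := by
    intro h
    have h1 := h.card_le_finrank_succ
    have h2 := Submodule.finrank_le (vectorSpan ℝ (range w))
    simp only [Fintype.card_fin, finrank_euclideanSpace] at h1 h2
    omega
  rw [affineIndependent_iff] at hdep
  push Not at hdep
  obtain ⟨s, a, h1, h2, e, he, hae⟩ := hdep
  apply core sim st n v hv _ w (fun i => if i ∈ s then a i else 0) hs _ _ _ rfl
  · intro h0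
    have := congrFun h0 e
    simp only [he, if_true, Pi.zero_apply] at this
    exact hae this
  · rw [Finset.sum_ite_mem, Finset.univ_inter]
    exact h1
  · simp only [ite_smul, zero_smul]
    rw [Finset.sum_ite_mem, Finset.univ_inter]
    exact h2

end Pool.Agent.H619.CS
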