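import Pool.Agent.H619.CS.St

set_option autoImplicit false

open MeasureTheory Set

open scoped ENNReal

namespace Pool.Agent.H619.CS

namespace PS

/-- the overlap of two intervals grows when the distance of their centres decreases -/
lemma overlap (c r d s t : ℝ) (ht : |t| ≤ 1) :
    volume (Icc (c - r) (c + r) ∩ Icc (d - s) (d + s)) ≤
      volume (Icc (t * c - r) (t * c + r) ∩ Icc (t * d - s) (t * d + s)) := by
  rw [Icc_inter_Icc, Icc_inter_Icc, Real.volume_Icc, Real.volume_Icc]
  apply ENNReal.ofReal_le_ofReal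
  have h0 : |t * (c - d)| ≤ |c - d| := by
    rw [abs_mul]
    exact mul_le_of_le_one_left (abs_nonneg _) ht
  have h1 := neg_abs_le (t * (c - d))
  have h2 := le_abs_self (t * (c - d))
  have m1 := min_le_left (c + r) (d + s)
  have m2 := min_le_right (c + r) (d + s)
  have m3 := le_max_left (c - r) (d - s)
  have m4 := le_max_right (c - r) (d - s)
  have h3 : min (c + r) (d + s) - max (c - r) (d - s) ≤ r + s - |c - d| := by
    rcases abs_cases (c - d) with ⟨h, _⟩ | ⟨h, _⟩ <;> rw [h] <;> linarith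
  rcases min_choice (t * c + r) (t * d + s) with h | h <;>
    rcases max_choice (t * c - r) (t * d - s) with h' | h' <;>
    rw [h, h'] <;> nlinarith

/-- the mean of an interval -/
lemma int_Icc (c r : ℝ) (hr : 0 ≤ r) : ∫ y in Icc (c - r) (c + r), y = 2 * r * c := by
  rw [integral_Icc_eq_integral_Ioc, ← intervalIntegral.integral_of_le (by linarith), integral_id]
  ring

variable {m : ℕ}

lemma slice_vol {K : Set (X m)} (hK : MeasurableSet K) :
    (volume : Measure (X m)) K = ∫⁻ x : Fin m → ℝ, volume {y : ℝ | (x, y) ∈ K} := by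
  rw [Measure.volume_eq_prod, Measure.prod_apply hK]
  rfl

lemma slice_int {G : Type} [NormedAddCommGroup G] [NormedSpace ℝ G] [CompleteSpace G]
    {K : Set (X m)} (hK : IsCompact K) (f : X m → G) (hf : Continuous f) :
    ∫ z in K, f z = ∫ x : Fin m → ℝ, ∫ y in {y : ℝ | (x, y) ∈ K}, f (x, y) := by
  have hm : MeasurableSet K := hK.measurableSet
  have hint : IntegrableOn f K volume := hf.continuousOn.integrableOn_compact hK
  rw [← integral_indicator hm, Measure.volume_eq_prod, integral_prod]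
  · congr 1
    funext x
    rw [← integral_indicator]
    · rfl
    · exact measurable_prodMk_left hm
  · rw [← Measure.volume_eq_prod]
    exact (integrable_indicator_iff hm).2 hint

end PS

open PS in
theorem ps : S_PS := by
  intro m K K' t ht hK hK' hne hsl
  have hKm := hK.measurableSet
  have hKm' := hK'.measurableSet
  -- volumes
  have hv1 : ∀ x : Fin m → ℝ, volume {y : ℝ | (x, y) ∈ K'} = volume {y : ℝ | (x, y) ∈ K} := by
    intro x
    rcases hsl x with ⟨h1, h2⟩ | ⟨c, r, _, h1, h2⟩
    · rw [h1, h2]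
    · rw [h1, h2, Real.volume_Icc, Real.volume_Icc]
      congr 1
      ring
  have hv : (volume : Measure (X m)) K' = (volume : Measure (X m)) K := by
    rw [slice_vol hKm, slice_vol hKm']
    exact lintegral_congr hv1
  -- integrals
  have hi : Integrable (fun z : X m => z) (volume.restrict K) :=
    continuous_id.continuousOn.integrableOn_compact hK
  have hi' : Integrable (fun z : X m => z) (volume.restrict K') :=
    continuous_id.continuousOn.integrableOn_compact hK'
  have hI1 : (∫ z in K', z).1 = (∫ z in K, z).1 := by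
    rw [fst_integral hi, fst_integral hi', slice_int hK _ continuous_fst,
      slice_int hK' _ continuous_fst]
    congr 1
    funext x
    simp only [setIntegral_const]
    rw [measureReal_def, measureReal_def, hv1]
  have hI2 : (∫ z in K', z).2 = t * (∫ z in K, z).2 := by
    rw [snd_integral hi, snd_integral hi', slice_int hK _ continuous_snd,
      slice_int hK' _ continuous_snd, ← integral_const_mul]
    congr 1
    funext x
    rcases hsl x with ⟨h1, h2⟩ | ⟨c, r, hr, h1, h2⟩
    · rw [h1, h2]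
      simp
    · rw [h1, h2, int_Icc _ _ hr, int_Icc _ _ hr]
      ring
  have hc : cen volume K' = ((cen volume K).1, t * (cen volume K).2) := by
    unfold cen
    rw [hv]
    ext1
    · simp only [Prod.smul_fst, hI1]
    · simp only [Prod.smul_snd, hI2, smul_eq_mul]
      ring
  refine ⟨hv, hc, ?_⟩
  unfold symv
  rw [hc]
  set g := cen volume K with hg
  have e1 : MeasurableSet {x : X m | x ∈ K ∧ (2 : ℝ) • g - x ∈ K} :=
    hKm.inter (hKm.preimage (measurable_const.sub measurable_id))
  have e2 : MeasurableSet {x : X m | x ∈ K' ∧ (2 : ℝ) • ((g.1, t * g.2) : X m) - x ∈ K'} :=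
    hKm'.inter (hKm'.preimage (measurable_const.sub measurable_id))
  rw [slice_vol e1, slice_vol e2]
  apply lintegral_mono
  intro x
  have q1 : {y : ℝ | (x, y) ∈ {x : X m | x ∈ K ∧ (2 : ℝ) • g - x ∈ K}} =
      {y : ℝ | (x, y) ∈ K} ∩ {y : ℝ | 2 * g.2 - y ∈ {y : ℝ | ((2 : ℝ) • g.1 - x, y) ∈ K}} := rfl
  have q2 : {y : ℝ | (x, y) ∈ {x : X m | x ∈ K' ∧
      (2 : ℝ) • ((g.1, t * g.2) : X m) - x ∈ K'}} =
      {y : ℝ | (x, y) ∈ K'} ∩
        {y : ℝ | 2 * (t * g.2) - y ∈ {y : ℝ | ((2 : ℝ) • g.1 - x, y) ∈ K'}} := rfl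
  show volume {y : ℝ | (x, y) ∈ {x : X m | x ∈ K ∧ (2 : ℝ) • g - x ∈ K}} ≤
    volume {y : ℝ | (x, y) ∈ {x : X m | x ∈ K' ∧ (2 : ℝ) • ((g.1, t * g.2) : X m) - x ∈ K'}}
  rw [q1, q2]
  rcases hsl x with ⟨h1, h2⟩ | ⟨c, r, hr, h1, h2⟩
  · rw [h1]
    simp
  rcases hsl ((2 : ℝ) • g.1 - x) with ⟨k1, k2⟩ | ⟨d, s, hs, k1, k2⟩
  · rw [k1]
    simp
  rw [h1, h2, k1, k2]
  have r1 : {y : ℝ | 2 * g.2 - y ∈ Icc (d - s) (d + s)} =
      Icc ((2 * g.2 - d) - s) ((2 * g.2 - d) + s) := by
    ext y
    simp only [mem_setOf_eq, mem_Icc]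
    constructor <;> rintro ⟨a, b⟩ <;> constructor <;> linarith
  have r2 : {y : ℝ | 2 * (t * g.2) - y ∈ Icc (t * d - s) (t * d + s)} =
      Icc (t * (2 * g.2 - d) - s) (t * (2 * g.2 - d) + s) := by
    ext y
    simp only [mem_setOf_eq, mem_Icc]
    constructor <;> rintro ⟨a, b⟩ <;> constructor <;> linarith
  rw [r1, r2]
  exact overlap c r (2 * g.2 - d) s t ht

end Pool.Agent.H619.CS
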