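import Pool.Agent.H619.CS.St

/-!
# CS SL: chords of an explicit convex hull (helper100, for helper619)
-/

set_option autoImplicit false

open MeasureTheory Set

open scoped ENNReal

namespace Pool.Agent.H619.CS

namespace SL

variable {ι : Type} {m : ℕ}

/-- the convex hull of the points `(v i, 0)` -/
lemma hull_left (v : ι → (Fin m → ℝ)) : convexHull ℝ (range (fun i => ((v i, 0) : X m))) =
    (LinearMap.inl ℝ (Fin m → ℝ) ℝ) '' convexHull ℝ (range v) := by
  rw [LinearMap.image_convexHull, ← range_comp]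
  rfl

/-- the convex hull of the two other points -/
lemma hull_right {l : ℝ} (p : X m) :
    p ∈ convexHull ℝ {((0, -l) : X m), ((0, 1 - l) : X m)} ↔
      p.1 = 0 ∧ p.2 ∈ Icc (-l) (1 - l) := by
  rw [convexHull_pair, segment]
  constructor
  · rintro ⟨a, b, ha, hb, hab, rfl⟩
    refine ⟨by simp, ?_⟩
    change a * (-l) + b * (1 - l) ∈ Icc (-l) (1 - l)
    have : a * (-l) + b * (1 - l) = b - l := by
      have : a = 1 - b := by linarith
      rw [this]; ring
    rw [this]
    constructor <;> linarith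
  · rintro ⟨h1, h2, h3⟩
    refine ⟨1 - (p.2 + l), p.2 + l, by linarith, by linarith, by ring, ?_⟩
    apply Prod.ext
    · rw [h1]; simp
    · change (1 - (p.2 + l)) * (-l) + (p.2 + l) * (1 - l) = p.2
      ring

/-- the points of `KK v l` -/
lemma mem_KK [Nonempty ι] (v : ι → (Fin m → ℝ)) (l : ℝ) (x : Fin m → ℝ) (y : ℝ) :
    (x, y) ∈ KK v l ↔ ∃ a : ℝ, (a ∈ Icc (0 : ℝ) 1 ∧ ∃ q ∈ convexHull ℝ (range v), (1 - a) • q = x) ∧
      ∃ b ∈ Icc (-l) (1 - l), a * b = y := by
  rw [KK, convexHull_union (range_nonempty _) (insert_nonempty _ _), mem_convexJoin, hull_left]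
  constructor
  · rintro ⟨_, ⟨q, hq, rfl⟩, p, hp, c, a, hc, ha, hca, h⟩
    rw [hull_right] at hp
    refine ⟨a, ⟨⟨ha, by linarith⟩, q, hq, ?_⟩, p.2, hp.2, ?_⟩
    · have h1 := congrArg Prod.fst h
      have h2 : c • q + a • p.1 = x := h1
      rw [hp.1, smul_zero, add_zero] at h2
      rw [← h2]
      congr 1
      linarith
    · have h1 := congrArg Prod.snd h
      have h2 : c * 0 + a * p.2 = y := h1
      linarith
  · rintro ⟨a, ⟨⟨ha0, ha1⟩, q, hq, h⟩, b, hb, hy⟩
    refine ⟨_, ⟨q, hq, rfl⟩, ((0, b) : X m), (hull_right _).2 ⟨rfl, hb⟩, 1 - a, a, by linarith, ha0,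
      by ring, ?_⟩
    apply Prod.ext
    · change (1 - a) • q + a • (0 : Fin m → ℝ) = x
      rw [smul_zero, add_zero, h]
    · change (1 - a) * 0 + a * b = y
      rw [mul_zero, zero_add, hy]

/-- the set of the parameters is compact -/
lemma compact_T [Finite ι] (v : ι → (Fin m → ℝ)) (x : Fin m → ℝ) :
    IsCompact {a : ℝ | a ∈ Icc (0 : ℝ) 1 ∧ ∃ q ∈ convexHull ℝ (range v), (1 - a) • q = x} := by
  have hQ : IsCompact (convexHull ℝ (range v)) := (finite_range v).isCompact_convexHull (𝕜 := ℝ)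
  have hK : IsCompact ((Icc (0 : ℝ) 1 ×ˢ convexHull ℝ (range v)) ∩
      {p : ℝ × (Fin m → ℝ) | (1 - p.1) • p.2 = x}) := by
    apply (isCompact_Icc.prod hQ).inter_right
    exact isClosed_eq ((continuous_const.sub continuous_fst).smul continuous_snd) continuous_const
  have himg := hK.image continuous_fst
  have heq : {a : ℝ | a ∈ Icc (0 : ℝ) 1 ∧ ∃ q ∈ convexHull ℝ (range v), (1 - a) • q = x} =
      Prod.fst '' ((Icc (0 : ℝ) 1 ×ˢ convexHull ℝ (range v)) ∩
      {p : ℝ × (Fin m → ℝ) | (1 - p.1) • p.2 = x}) := by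
    ext a
    constructor
    · rintro ⟨ha, q, hq, h⟩
      exact ⟨(a, q), ⟨⟨ha, hq⟩, h⟩, rfl⟩
    · rintro ⟨⟨a', q⟩, ⟨⟨ha, hq⟩, h⟩, rfl⟩
      exact ⟨ha, q, hq, h⟩
  rw [heq]
  exact himg

end SL

theorem sl : S_SL := by
  intro ι _ _ m v x
  let T : Set ℝ := {a : ℝ | a ∈ Icc (0 : ℝ) 1 ∧ ∃ q ∈ convexHull ℝ (range v), (1 - a) • q = x}
  have hT : IsCompact T := SL.compact_T v x
  have hmem : ∀ l y : ℝ, (x, y) ∈ KK v l ↔ ∃ a ∈ T, ∃ b ∈ Icc (-l) (1 - l), a * b = y := by
    intro l y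
    rw [SL.mem_KK]
    rfl
  rcases T.eq_empty_or_nonempty with hE | hN
  · left
    intro l _ _
    ext y
    constructor
    · intro hy
      obtain ⟨a, ha, _⟩ := (hmem l y).1 hy
      rw [hE] at ha
      exact ha
    · intro hy
      exact absurd hy (notMem_empty _)
  · right
    have hS : sSup T ∈ T := hT.sSup_mem hN
    have hS0 : 0 ≤ sSup T := hS.1.1
    refine ⟨sSup T, hS0, ?_⟩
    intro l hl0 hl1
    ext y
    constructor
    · intro hy
      obtain ⟨a, ha, b, hb, rfl⟩ := (hmem l y).1 hy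
      have ha0 : 0 ≤ a := ha.1.1
      have haS : a ≤ sSup T := le_csSup hT.bddAbove ha
      constructor
      · have h1 : a * (-l) ≤ a * b := mul_le_mul_of_nonneg_left hb.1 ha0
        have h2 : a * l ≤ sSup T * l := mul_le_mul_of_nonneg_right haS hl0
        linarith
      · have h1 : a * b ≤ a * (1 - l) := mul_le_mul_of_nonneg_left hb.2 ha0
        have h2 : a * (1 - l) ≤ sSup T * (1 - l) :=
          mul_le_mul_of_nonneg_right haS (by linarith)
        linarith
    · intro hy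
      apply (hmem l y).2
      refine ⟨sSup T, hS, ?_⟩
      rcases hS0.eq_or_lt with h0 | h0
      · refine ⟨-l, ⟨le_rfl, by linarith⟩, ?_⟩
        rw [← h0] at hy ⊢
        have h1 := hy.1
        have h2 := hy.2
        rw [mul_zero] at h1 h2
        linarith
      · refine ⟨y / sSup T, ⟨?_, ?_⟩, by field_simp⟩
        · rw [le_div_iff₀ h0]
          have := hy.1
          linarith
        · rw [div_le_iff₀ h0]
          exact hy.2

end Pool.Agent.H619.CS
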