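import Pool.Agent.H619.CS.St

set_option autoImplicit false

open MeasureTheory Set

open scoped ENNReal

namespace Pool.Agent.H619.CS

namespace STEP

theorem exists_equiv {E : Type} [NormedAddCommGroup E] [NormedSpace ℝ E]
    [FiniteDimensional ℝ E] (D : Submodule ℝ E) (U : E) (hU : U ≠ 0)
    (h : IsCompl D (Submodule.span ℝ {U})) :
    ∃ (m : ℕ) (e : E ≃L[ℝ] X m), e U = (0, 1) ∧ ∀ d ∈ D, (e d).2 = 0 := by
  let f1 : D ≃ₗ[ℝ] (Fin (Module.finrank ℝ D) → ℝ) := (Module.finBasis ℝ D).equivFun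
  let f2 : Submodule.span ℝ {U} ≃ₗ[ℝ] ℝ := (LinearEquiv.toSpanNonzeroSingleton ℝ E U hU).symm
  let g : E ≃ₗ[ℝ] (D × Submodule.span ℝ {U}) := (Submodule.prodEquivOfIsCompl D _ h).symm
  let L : E ≃ₗ[ℝ] X (Module.finrank ℝ D) := g.trans (f1.prodCongr f2)
  refine ⟨Module.finrank ℝ D, L.toContinuousLinearEquiv, ?_, ?_⟩
  · change L U = (0, 1)
    have hg : g U = (0, ⟨U, Submodule.mem_span_singleton_self U⟩) := by
      have := Submodule.prodEquivOfIsCompl_symm_apply_right D (Submodule.span ℝ {U}) h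
        ⟨U, Submodule.mem_span_singleton_self U⟩
      exact this
    have h2 : f2 ⟨U, Submodule.mem_span_singleton_self U⟩ = 1 := by
      rw [LinearEquiv.symm_apply_eq]
      ext
      simp
    change (f1.prodCongr f2) (g U) = (0, 1)
    rw [hg]
    simp only [LinearEquiv.prodCongr_apply, map_zero, h2]
  · intro d hd
    change ((f1.prodCongr f2) (g d)).2 = 0
    have hg : g d = (⟨d, hd⟩, 0) := by
      exact Submodule.prodEquivOfIsCompl_symm_apply_left D (Submodule.span ℝ {U}) h ⟨d, hd⟩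
    rw [hg]
    simp

/-- image of the polytope -/
theorem image_PP {ι E : Type} [NormedAddCommGroup E] [NormedSpace ℝ E] {m : ℕ}
    (e : E ≃L[ℝ] X m) (v : ι → E) (c U : E) (hU : e U = (0, 1))
    (hv : ∀ i, (e (v i - c)).2 = 0) (l : ℝ) :
    (fun x => e x + -(e c)) '' (PP v c U l) = KK (fun i => (e (v i - c)).1) l := by
  let A : E →ᵃ[ℝ] X m := (e.toLinearEquiv.toLinearMap.toAffineMap) + AffineMap.const ℝ E (-(e c))
  have hA : (fun x => e x + -(e c)) = (A : E → X m) := by
    funext x
    simp [A]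
  rw [hA, PP, AffineMap.image_convexHull, KK]
  congr 1
  rw [← hA, image_union, ← range_comp, image_pair]
  congr 1
  · congr 1
    funext i
    have := hv i
    have h2 : (e (v i - c)) = ((e (v i - c)).1, (0:ℝ)) := Prod.ext rfl this
    simp only [Function.comp]
    rw [← h2, map_sub]
    abel
  · congr 1
    · rw [map_sub, map_smul, hU]
      ext
      · simp
      · simp
        ring
    · rw [map_add, map_smul, hU]
      ext <;> simp

theorem span_top {ι E : Type} [Nonempty ι] [NormedAddCommGroup E] [NormedSpace ℝ E]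
    (v : ι → E) (c U : E) (h : IsCompl (vectorSpan ℝ (range v)) (Submodule.span ℝ {U})) :
    affineSpan ℝ (range v ∪ {c - (0:ℝ) • U, c + (1 - (0:ℝ)) • U}) = ⊤ := by
  set T : Set E := range v ∪ {c - (0:ℝ) • U, c + (1 - (0:ℝ)) • U} with hT
  obtain ⟨i⟩ := ‹Nonempty ι›
  have hne : ((affineSpan ℝ T : AffineSubspace ℝ E) : Set E).Nonempty :=
    ⟨v i, subset_affineSpan ℝ T (Or.inl ⟨i, rfl⟩)⟩
  rw [← AffineSubspace.direction_eq_top_iff_of_nonempty hne, direction_affineSpan]
  rw [eq_top_iff, ← h.sup_eq_top]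
  apply sup_le
  · exact vectorSpan_mono ℝ subset_union_left
  · rw [Submodule.span_singleton_le_iff_mem]
    have h1 : (c + (1 - (0:ℝ)) • U) -ᵥ (c - (0:ℝ) • U) ∈ vectorSpan ℝ T :=
      vsub_mem_vectorSpan ℝ (Or.inr (by simp)) (Or.inr (by simp))
    simpa using h1

end STEP

theorem step (aff : S_AFF) (ps : S_PS) (sl : S_SL) : S_STEP := by
  intro ι E _ _ _ _ _ _ _ μ _ v c U l hl0 hl1 hc hcompl hU
  obtain ⟨m, e, heU, heD⟩ := STEP.exists_equiv (vectorSpan ℝ (range v)) U hU hcompl
  have hv : ∀ i, (e (v i - c)).2 = 0 := by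
    intro i
    apply heD
    have h1 : v i ∈ affineSpan ℝ (range v) := subset_affineSpan ℝ _ ⟨i, rfl⟩
    have := AffineSubspace.vsub_mem_direction h1 hc
    rwa [direction_affineSpan] at this
  have him := STEP.image_PP e v c U heU hv
  set v' : ι → (Fin m → ℝ) := fun i => (e (v i - c)).1 with hv'
  haveI : (volume : Measure (X m)).IsAddHaarMeasure := by
    rw [Measure.volume_eq_prod]
    infer_instance
  obtain ⟨κ, hκ0, hκt, hκ1, hκ2⟩ := aff E (X m) μ (volume : Measure (X m)) e (-(e c))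
  have hcomp : ∀ l, IsCompact (PP v c U l) := by
    intro l
    apply Set.Finite.isCompact_convexHull
    exact (Set.finite_range v).union ((Set.finite_singleton _).insert _)
  have hcompK : ∀ l, IsCompact (KK v' l) := by
    intro l
    apply Set.Finite.isCompact_convexHull
    exact (Set.finite_range _).union ((Set.finite_singleton _).insert _)
  have hpos : μ (PP v c U 0) ≠ 0 := by
    have h1 : (interior (PP v c U 0)).Nonempty := by
      rw [PP, interior_convexHull_nonempty_iff_affineSpan_eq_top]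
      exact STEP.span_top v c U hcompl
    have h2 : 0 < μ (interior (PP v c U 0)) := isOpen_interior.measure_pos μ h1
    exact (h2.trans_le (measure_mono interior_subset)).ne'
  have hposK : (volume : Measure (X m)) (KK v' 0) ≠ 0 := by
    rw [← him 0, hκ1]
    exact mul_ne_zero hκ0 hpos
  have hps := ps m (KK v' 0) (KK v' l) (1 - 2 * l) (by rw [abs_le]; constructor <;> linarith)
    (hcompK 0) (hcompK l) hposK (by
      intro x
      rcases sl ι m v' x with h | ⟨S, hS, h⟩
      · left
        exact ⟨h 0 le_rfl zero_le_one, h l hl0 hl1⟩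
      · right
        refine ⟨S / 2, S / 2, by linarith, ?_, ?_⟩
        · rw [h 0 le_rfl zero_le_one]
          congr 1 <;> ring
        · rw [h l hl0 hl1]
          congr 1 <;> ring)
  obtain ⟨h1, -, h3⟩ := hps
  have hvol : μ (PP v c U l) = μ (PP v c U 0) := by
    rw [← him l, ← him 0, hκ1, hκ1] at h1
    exact (ENNReal.mul_right_inj hκ0 hκt).1 h1
  refine ⟨hvol, ?_⟩
  have hpos' : μ (PP v c U l) ≠ 0 := by rw [hvol]; exact hpos
  rw [← him l, ← him 0, (hκ2 _ (hcomp l) hpos').2, (hκ2 _ (hcomp 0) hpos).2] at h3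
  exact (ENNReal.mul_le_mul_iff_right hκ0 hκt).1 h3

end Pool.Agent.H619.CS
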