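import Mathlib

/-!
# Project CS (MP_e508a7_gt): symmetric part about the centroid, polytopes with at most `n + 2` vertices

Statements `S_X : Prop` with complete paper proofs in the docstrings.
-/

set_option autoImplicit false

open MeasureTheory Set

open scoped ENNReal

namespace Pool.Agent.H619.CS

/-- the centroid of `K` -/
noncomputable def cen {E : Type} [NormedAddCommGroup E] [NormedSpace ℝ E] [MeasurableSpace E]
    (μ : Measure E) (K : Set E) : E := (μ K).toReal⁻¹ • ∫ x in K, x ∂μ

/-- the volume of the part of `K` which is symmetric about the centroid of `K` -/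
noncomputable def symv {E : Type} [NormedAddCommGroup E] [NormedSpace ℝ E] [MeasurableSpace E]
    (μ : Measure E) (K : Set E) : ℝ≥0∞ := μ {x | x ∈ K ∧ (2 : ℝ) • cen μ K - x ∈ K}

/-- the space with coordinates `(x, y)` -/
abbrev X (m : ℕ) : Type := (Fin m → ℝ) × ℝ

/-- AFF. Affine invariance. Proof: `x ↦ e x + b` maps `μ` to a multiple of `ν` (a translation does
not change a Haar measure; for the linear part, `ν.comap e` or `(ν.map e.symm)` is a Haar measure
on `E`, so it is `κ • μ` with `0 < κ < ∞`, `MeasureTheory.Measure.isAddHaarMeasure_eq_smul` or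
`Measure.addHaarMeasure_unique`; in Mathlib also
`LinearEquiv.isAddHaarMeasure_map`, `ContinuousLinearEquiv.isAddHaarMeasure_map`). So
`ν (A '' S) = κ * μ S` for every set `S` (`A` is a homeomorphism; `MeasurableEquiv.map_apply`
holds for all sets). The centroid: `∫ y in A '' K, y ∂ν = κ ∫ x in K, (e x + b) ∂μ
= κ (e (∫ x in K, x) + μ(K) b)`, divide by `ν (A '' K) = κ μ(K)` (`0 < μ K < ∞`; `x` is integrable on
the compact set `K`). Lastly `A '' {x ∈ K | 2 cen K - x ∈ K} = {y ∈ A '' K | 2 cen (A K) - y ∈ A '' K}`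
since `2 A(c) - A(x) = A(2 c - x)`. -/
def S_AFF : Prop :=
  ∀ (E F : Type) [NormedAddCommGroup E] [NormedSpace ℝ E] [MeasurableSpace E] [BorelSpace E]
    [FiniteDimensional ℝ E] [NormedAddCommGroup F] [NormedSpace ℝ F] [MeasurableSpace F]
    [BorelSpace F] [FiniteDimensional ℝ F] (μ : Measure E) [μ.IsAddHaarMeasure] (ν : Measure F)
    [ν.IsAddHaarMeasure] (e : E ≃L[ℝ] F) (b : F),
    ∃ κ : ℝ≥0∞, κ ≠ 0 ∧ κ ≠ ⊤ ∧ (∀ S : Set E, ν ((fun x => e x + b) '' S) = κ * μ S) ∧
      ∀ K : Set E, IsCompact K → μ K ≠ 0 →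
        cen ν ((fun x => e x + b) '' K) = e (cen μ K) + b ∧
        symv ν ((fun x => e x + b) '' K) = κ * symv μ K

/-- PS. Partial Steiner symmetrisation in the direction of the last coordinate. The chords
`[c - r, c + r]` of `K` are moved to `[t c - r, t c + r]`, with one `t ∈ [-1, 1]` for all chords. -/
def S_PS : Prop :=
  ∀ (m : ℕ) (K K' : Set (X m)) (t : ℝ), |t| ≤ 1 → IsCompact K → IsCompact K' →
    (volume : Measure (X m)) K ≠ 0 →
    (∀ x : Fin m → ℝ, ({y : ℝ | (x, y) ∈ K} = ∅ ∧ {y : ℝ | (x, y) ∈ K'} = ∅) ∨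
      ∃ c r : ℝ, 0 ≤ r ∧ {y : ℝ | (x, y) ∈ K} = Icc (c - r) (c + r) ∧
        {y : ℝ | (x, y) ∈ K'} = Icc (t * c - r) (t * c + r)) →
    (volume : Measure (X m)) K' = (volume : Measure (X m)) K ∧
      cen volume K' = ((cen volume K).1, t * (cen volume K).2) ∧
      symv volume K ≤ symv volume K'

/-- the polytope with vertices `(v i, 0)`, `(0, -l)`, `(0, 1 - l)` -/
def KK {ι : Type} {m : ℕ} (v : ι → (Fin m → ℝ)) (l : ℝ) : Set (X m) :=
  convexHull ℝ (range (fun i => ((v i, 0) : X m)) ∪ {((0, -l) : X m), ((0, 1 - l) : X m)})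

/-- SL. Chords of `KK v l` in the direction of the last coordinate. Proof: let `Q` be the convex
hull of `range v` (compact, nonempty, `ι` is finite and nonempty). The convex hull of the union of
two convex sets (`convexHull_union`, `Convex.convexHull_union`, `convexJoin`) gives, for `0 ≤ l ≤ 1`,
`KK v l = {(x, y) | ∃ a ∈ [0,1], ∃ q ∈ Q, ∃ b ∈ [-l, 1 - l], x = (1 - a) q, y = a b}`. For a given `x`
let `T = {a ∈ [0,1] | ∃ q ∈ Q, x = (1 - a) q}`, a compact set which does not depend on `l`. If `T` is
empty the chord is empty for all `l`. Otherwise let `S = max T`; the chord is the union over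
`a ∈ T` of `[-a l, a (1 - l)]`, and these intervals increase with `a` as `-l ≤ 0 ≤ 1 - l`. -/
def S_SL : Prop :=
  ∀ (ι : Type) [Finite ι] [Nonempty ι] (m : ℕ) (v : ι → (Fin m → ℝ)) (x : Fin m → ℝ),
    (∀ l : ℝ, 0 ≤ l → l ≤ 1 → {y : ℝ | (x, y) ∈ KK v l} = ∅) ∨
    ∃ S : ℝ, 0 ≤ S ∧ ∀ l : ℝ, 0 ≤ l → l ≤ 1 →
      {y : ℝ | (x, y) ∈ KK v l} = Icc (-(l * S)) ((1 - l) * S)

/-- the polytope with vertices `v i`, `c - l U`, `c + (1 - l) U` -/
def PP {ι E : Type} [NormedAddCommGroup E] [NormedSpace ℝ E] (v : ι → E) (c U : E) (l : ℝ) :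
    Set E :=
  convexHull ℝ (range v ∪ {c - l • U, c + (1 - l) • U})

/-- STEP (from AFF, PS, SL). Proof: let `D = vectorSpan ℝ (range v)`, so `D` and the line spanned by
`U` are complementary, and `v i - c ∈ D` for all `i` (as `c ∈ affineSpan`). With `m = finrank D` choose
a linear equivalence `D ≃ (Fin m → ℝ)`; with `Submodule.prodEquivOfIsCompl` this gives
`e : E ≃L[ℝ] X m` with `e U = (0, 1)` and `(e d).2 = 0` for `d ∈ D`. The map `A x = e x - e c` maps
`PP v c U l` onto `KK v' l` with `v' i = (e (v i - c)).1` (image of a convex hull under an affine map).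
By SL the chords of `KK v' 0` are `[0, S] = [S/2 - S/2, S/2 + S/2]` and those of `KK v' l` are
`[-l S, (1 - l) S] = [t S/2 - S/2, t S/2 + S/2]` with `t = 1 - 2 l`, so PS applies; both sets are
compact (convex hull of a finite set), and `KK v' 0` has positive volume (it has nonempty interior
since its affine span is everything: `interior_convexHull_nonempty_iff_affineSpan_eq_top`). Then go
back with AFF (one `κ` for all sets). -/
def S_STEP : Prop :=
  ∀ (ι E : Type) [Finite ι] [Nonempty ι] [NormedAddCommGroup E] [NormedSpace ℝ E]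
    [MeasurableSpace E] [BorelSpace E] [FiniteDimensional ℝ E] (μ : Measure E)
    [μ.IsAddHaarMeasure] (v : ι → E) (c U : E) (l : ℝ), 0 ≤ l → l ≤ 1 →
    c ∈ affineSpan ℝ (range v) → IsCompl (vectorSpan ℝ (range v)) (Submodule.span ℝ {U}) →
    U ≠ 0 →
    μ (PP v c U l) = μ (PP v c U 0) ∧ symv μ (PP v c U 0) ≤ symv μ (PP v c U l)

/-- SIM (from AFF). Any two simplices have the same ratio. Proof: two affinely independent families
of `n + 1` points of an `n`-dimensional space are exchanged by an affine equivalence (e.g. take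
`AffineBasis`es; or: `v i - v 0` (`i ≠ 0`) and `v' i - v' 0` are bases,
`affineIndependent_iff_linearIndependent_vsub`, `basisOfLinearIndependentOfCardEqFinrank`,
`Basis.equiv`), which maps one convex hull to the other one. Apply AFF with `E = F`, `μ = ν`
the volume. Volumes of simplices are positive (nonempty interior) and finite (compact). -/
def S_SIM : Prop :=
  ∀ (n : ℕ) (v v' : Fin (n + 1) → EuclideanSpace ℝ (Fin n)), AffineIndependent ℝ v →
    AffineIndependent ℝ v' →
    symv volume (convexHull ℝ (range v)) * volume (convexHull ℝ (range v')) =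
      symv volume (convexHull ℝ (range v')) * volume (convexHull ℝ (range v))

/-- IND (from SIM and STEP). Polytopes with at most `n + 2` vertices. Proof: prove by induction on
`k` the statement: for all `w : Fin (n+2) → E`, `α : Fin (n+2) → ℝ` with
`affineSpan ℝ (range w) = ⊤`, `α ≠ 0`, `∑ α i = 0`, `∑ α i • w i = 0` and
`#{i | 0 < α i} = k`, the conclusion holds. At the end: an affine dependence `α` exists since
`n + 2` points of an `n`-dimensional space are affinely dependent, and
`affineSpan ℝ (range w) = ⊤` iff the interior is nonempty.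

`k = 0` is impossible. `k = 1`: let `i` be the index with `α i > 0`. Then `w i` is a convex combination
of the other points (coefficients `- α j / α i ≥ 0`, sum `1`), so the convex hull is that of the
`n + 1` points `w (i.succAbove j)`, whose affine span is everything, so they are affinely
independent, and SIM applies.

`k ≥ 2`: let `i ≠ j` with `α i, α j > 0`; `s = α i + α j`, `c = (α i • w i + α j • w j) / s`,
`U = w i - w j`, `l = α i / s`, so `w j = c - l U`, `w i = c + (1 - l) U`. Let `v` be the family of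
the other `n` points (index type `{h // h ≠ i ∧ h ≠ j}`). Then `c = ∑_{h ≠ i,j} (- α h / s) w h` is in
the affine span of `range v` (coefficients of sum `1`; in particular the index type is not empty).
`vectorSpan (range w)` is contained in `vectorSpan (range v) ⊔ span {U}` (all points differ from `c`
by elements of it), so the latter is `⊤`; `finrank (vectorSpan (range v)) ≤ n - 1`
(`finrank_vectorSpan_range_le` or `finrank_vectorSpan_insert_le`...), hence IsCompl and `U ≠ 0`
(dimension count). So `convexHull (range w) = PP v c U l`. Let `w'` be `w` with `w' j = c` and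
`w' i = c + U`; then `convexHull (range w') = PP v c U 0`, the affine span of `range w'` is
everything, and `α'` (`α' i = 0`, `α' j = s`, `α' h = α h` else) is an affine dependence of `w'` with
`k - 1` positive coefficients. Use the induction hypothesis for `w'` and STEP (volumes equal, the
symmetric part does not decrease from `l = 0` to `l`). -/
def S_IND : Prop :=
  ∀ (n : ℕ) (v : Fin (n + 1) → EuclideanSpace ℝ (Fin n))
    (w : Fin (n + 2) → EuclideanSpace ℝ (Fin n)), AffineIndependent ℝ v →
    (interior (convexHull ℝ (range w))).Nonempty →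
    symv volume (convexHull ℝ (range v)) * volume (convexHull ℝ (range w)) ≤
      symv volume (convexHull ℝ (range w)) * volume (convexHull ℝ (range v))

/-- GEN (from AFF, PS). Partial Steiner symmetrisation of a body with centroid `0`, without
coordinates. Proof: `n ≥ 1` as `u ≠ 0`. Let `m = n - 1`, choose `e : E ≃L[ℝ] X m` with `e u = (0, 1)`
and `(e x).2 = φ x` (`x ↦ (x - φ x • u, φ x)` is an equivalence `E ≃ ker φ × ℝ`, and
`finrank (ker φ) = n - 1`). The chord of `e '' K` over `x` is `{s | z + s • u ∈ K}` with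
`z = e.symm (x, 0)`, `φ z = 0`. If `volume K = 0` then `volume K' = 0` too (same chords; or treat the
claim in `X m` directly: PS gives it when `volume K ≠ 0`; for `volume K = 0` the slices of `K'` have
the same measure as those of `K`, by `measure_prod_null`), and all assertions are trivial.
Otherwise PS and AFF (with `b = 0`): `cen K = 0`, so `cen (e K) = 0`, `cen (e K') = (0, t * 0) = 0`, so
`cen K' = 0` and `∫ x in K', x = 0`; with `cen = 0` the set in `symv` is `{x ∈ K | -x ∈ K}`. -/
def S_GEN : Prop :=
  ∀ (n : ℕ) (K K' : Set (EuclideanSpace ℝ (Fin n))) (u : EuclideanSpace ℝ (Fin n))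
    (φ : EuclideanSpace ℝ (Fin n) →L[ℝ] ℝ) (t : ℝ), φ u = 1 → |t| ≤ 1 → IsCompact K →
    IsCompact K' →
    (∀ z, φ z = 0 → ({s : ℝ | z + s • u ∈ K} = ∅ ∧ {s : ℝ | z + s • u ∈ K'} = ∅) ∨
      ∃ c r : ℝ, 0 ≤ r ∧ {s : ℝ | z + s • u ∈ K} = Icc (c - r) (c + r) ∧
        {s : ℝ | z + s • u ∈ K'} = Icc (t * c - r) (t * c + r)) →
    ∫ x in K, x = 0 →
    ∫ x in K', x = 0 ∧ volume K' = volume K ∧
      volume {x | x ∈ K ∧ -x ∈ K} ≤ volume {x | x ∈ K' ∧ -x ∈ K'}

end Pool.Agent.H619.CS
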