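import Pool.Agent.H619.CS.St

/-!
# Coordinate-free partial Steiner symmetrisation
-/

set_option autoImplicit false

open MeasureTheory Set

open scoped ENNReal

namespace Pool.Agent.H619.CS

namespace GENaux

/-- coordinates adapted to `u` and `φ` -/
theorem coords (m : ℕ) (u : EuclideanSpace ℝ (Fin (m + 1)))
    (φ : EuclideanSpace ℝ (Fin (m + 1)) →L[ℝ] ℝ) (hu : φ u = 1) :
    ∃ e : EuclideanSpace ℝ (Fin (m + 1)) ≃L[ℝ] X m,
      (∀ (x : Fin m → ℝ) (y : ℝ), e.symm (x, y) = e.symm (x, 0) + y • u) ∧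
      ∀ x : Fin m → ℝ, φ (e.symm (x, 0)) = 0 := by
  have hsurj : LinearMap.range (φ : EuclideanSpace ℝ (Fin (m + 1)) →ₗ[ℝ] ℝ) = ⊤ := by
    rw [LinearMap.range_eq_top]
    intro s
    refine ⟨s • u, ?_⟩
    simp [hu]
  have hfin : Module.finrank ℝ (LinearMap.ker (φ : EuclideanSpace ℝ (Fin (m + 1)) →ₗ[ℝ] ℝ)) = m := by
    have h := LinearMap.finrank_range_add_finrank_ker (φ : EuclideanSpace ℝ (Fin (m + 1)) →ₗ[ℝ] ℝ)
    rw [hsurj, finrank_top, Module.finrank_self, finrank_euclideanSpace, Fintype.card_fin] at h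
    omega
  let g := (Module.finBasisOfFinrankEq ℝ _ hfin).equivFun
  let L : X m →ₗ[ℝ] EuclideanSpace ℝ (Fin (m + 1)) :=
    ((Submodule.subtype _).comp g.symm.toLinearMap).coprod (LinearMap.toSpanSingleton ℝ _ u)
  have hL : ∀ (a : Fin m → ℝ) (s : ℝ), L (a, s) = (g.symm a : EuclideanSpace ℝ (Fin (m + 1))) + s • u := by
    intro a s
    simp [L]
  have hφL : ∀ (a : Fin m → ℝ) (s : ℝ), φ (L (a, s)) = s := by
    intro a s
    rw [hL, map_add, map_smul, hu]
    have h1 : φ (g.symm a : EuclideanSpace ℝ (Fin (m + 1))) = 0 := (g.symm a).2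
    rw [h1]
    simp
  have hbij : Function.Bijective L := by
    have hinj : Function.Injective L := by
      rw [injective_iff_map_eq_zero]
      rintro ⟨a, s⟩ h
      have h1 := hφL a s
      rw [h, map_zero] at h1
      rw [hL, ← h1, zero_smul, add_zero] at h
      have h2 : g.symm a = 0 := Subtype.ext h
      have h3 : a = 0 := by
        have := congrArg g h2
        simpa using this
      rw [← h1, h3]
      rfl
    refine ⟨hinj, ?_⟩
    have h4 : Module.finrank ℝ (X m) = Module.finrank ℝ (EuclideanSpace ℝ (Fin (m + 1))) := by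
      rw [finrank_euclideanSpace, Fintype.card_fin, Module.finrank_prod, Module.finrank_fin_fun,
        Module.finrank_self]
    exact (LinearMap.injective_iff_surjective_of_finrank_eq_finrank h4).mp hinj
  let e := (LinearEquiv.ofBijective L hbij).symm.toContinuousLinearEquiv
  have he : ∀ p : X m, e.symm p = L p := fun p => rfl
  refine ⟨e, ?_, ?_⟩
  · intro x y
    rw [he, he, hL, hL, zero_smul, add_zero]
  · intro x
    rw [he, hφL]

theorem cen_zero {E : Type} [NormedAddCommGroup E] [NormedSpace ℝ E] [MeasurableSpace E]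
    (μ : Measure E) (K : Set E) (h : ∫ x in K, x ∂μ = 0) : cen μ K = 0 := by
  unfold cen
  rw [h, smul_zero]

theorem symv_zero {E : Type} [NormedAddCommGroup E] [NormedSpace ℝ E] [MeasurableSpace E]
    (μ : Measure E) (K : Set E) (h : cen μ K = 0) : symv μ K = μ {x | x ∈ K ∧ -x ∈ K} := by
  unfold symv
  rw [h]
  simp

end GENaux

open GENaux in
theorem gen (aff : S_AFF) (ps : S_PS) : S_GEN := by
  intro n K K' u φ t hu ht hK hK' hch hint
  obtain ⟨m, rfl⟩ : ∃ m, n = m + 1 := by
    rcases n with _ | m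
    · exfalso
      have h1 : u = 0 := Subsingleton.elim _ _
      rw [h1, map_zero] at hu
      norm_num at hu
    · exact ⟨m, rfl⟩
  obtain ⟨e, he1, he2⟩ := coords m u φ hu
  haveI hHaar : (volume : Measure (X m)).IsAddHaarMeasure :=
    inferInstanceAs ((volume : Measure (Fin m → ℝ)).prod (volume : Measure ℝ)).IsAddHaarMeasure
  obtain ⟨κ, hκ0, hκt, hκ, hκ2⟩ := aff (EuclideanSpace ℝ (Fin (m + 1))) (X m) volume volume e 0
  have hfun : (fun x : EuclideanSpace ℝ (Fin (m + 1)) => e x + (0 : X m)) = e := by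
    funext x
    rw [add_zero]
  rw [hfun] at hκ hκ2
  -- chords
  have hmem : ∀ (S : Set (EuclideanSpace ℝ (Fin (m + 1)))) (x : Fin m → ℝ) (y : ℝ),
      (x, y) ∈ e '' S ↔ e.symm (x, 0) + y • u ∈ S := by
    intro S x y
    rw [← he1]
    constructor
    · rintro ⟨z, hz, hzx⟩
      rw [← hzx, e.symm_apply_apply]
      exact hz
    · intro h
      exact ⟨_, h, e.apply_symm_apply _⟩
  have hsl : ∀ (S : Set (EuclideanSpace ℝ (Fin (m + 1)))) (x : Fin m → ℝ),
      {y : ℝ | (x, y) ∈ e '' S} = {s : ℝ | e.symm (x, 0) + s • u ∈ S} := by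
    intro S x
    ext y
    exact hmem S x y
  have hch' : ∀ x : Fin m → ℝ, ({y : ℝ | (x, y) ∈ e '' K} = ∅ ∧ {y : ℝ | (x, y) ∈ e '' K'} = ∅) ∨
      ∃ c r : ℝ, 0 ≤ r ∧ {y : ℝ | (x, y) ∈ e '' K} = Icc (c - r) (c + r) ∧
        {y : ℝ | (x, y) ∈ e '' K'} = Icc (t * c - r) (t * c + r) := by
    intro x
    rw [hsl, hsl]
    exact hch _ (he2 x)
  have hcK : IsCompact (e '' K) := hK.image e.continuous
  have hcK' : IsCompact (e '' K') := hK'.image e.continuous
  by_cases hv : (volume : Measure (EuclideanSpace ℝ (Fin (m + 1)))) K = 0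
  · -- null sets
    have h1 : (volume : Measure (X m)) (e '' K) = 0 := by rw [hκ, hv, mul_zero]
    have h2 : (volume : Measure (X m)) (e '' K') = 0 := by
      rw [Measure.volume_eq_prod] at h1 ⊢
      rw [Measure.measure_prod_null hcK.measurableSet] at h1
      rw [Measure.measure_prod_null hcK'.measurableSet]
      filter_upwards [h1] with x hx
      rcases hch' x with ⟨h3, h4⟩ | ⟨c, r, hr, h3, h4⟩
      · have h5 : Prod.mk x ⁻¹' (e '' K') = ∅ := h4
        rw [h5]
        simp
      · have h5 : Prod.mk x ⁻¹' (e '' K') = Icc (t * c - r) (t * c + r) := h4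
        have h6 : Prod.mk x ⁻¹' (e '' K) = Icc (c - r) (c + r) := h3
        rw [h6] at hx
        rw [h5]
        rw [Real.volume_Icc] at hx ⊢
        rw [← hx]
        congr 1
        ring
    have h3 : (volume : Measure (EuclideanSpace ℝ (Fin (m + 1)))) K' = 0 := by
      rw [hκ] at h2
      exact (mul_eq_zero.mp h2).resolve_left hκ0
    refine ⟨setIntegral_measure_zero _ h3, by rw [hv, h3], ?_⟩
    have h4 : (volume : Measure (EuclideanSpace ℝ (Fin (m + 1)))) {x | x ∈ K ∧ -x ∈ K} = 0 :=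
      measure_mono_null (fun x hx => hx.1) hv
    rw [h4]
    exact zero_le
  · have hvi : (volume : Measure (X m)) (e '' K) ≠ 0 := by
      rw [hκ]
      exact mul_ne_zero hκ0 hv
    obtain ⟨p1, p2, p3⟩ := ps m (e '' K) (e '' K') t ht hcK hcK' hvi hch'
    rw [hκ, hκ] at p1
    have hvol : (volume : Measure (EuclideanSpace ℝ (Fin (m + 1)))) K' =
        (volume : Measure (EuclideanSpace ℝ (Fin (m + 1)))) K :=
      (ENNReal.mul_right_inj hκ0 hκt).mp p1
    have hv' : (volume : Measure (EuclideanSpace ℝ (Fin (m + 1)))) K' ≠ 0 := by rwa [hvol]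
    obtain ⟨a1, a2⟩ := hκ2 K hK hv
    obtain ⟨b1, b2⟩ := hκ2 K' hK' hv'
    have c1 : cen (volume : Measure (EuclideanSpace ℝ (Fin (m + 1)))) K = 0 := cen_zero _ _ hint
    rw [a1, b1, c1] at p2
    have c2 : e (cen volume K') = 0 := by
      have h1 : e (cen volume K') + 0 = ((e 0 + 0 : X m).1, t * (e 0 + 0 : X m).2) := p2
      rw [add_zero, add_zero, map_zero] at h1
      rw [h1]
      ext <;> simp
    have c3 : cen (volume : Measure (EuclideanSpace ℝ (Fin (m + 1)))) K' = 0 := by
      have := congrArg e.symm c2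
      simpa using this
    rw [a2, b2] at p3
    have p4 : symv (volume : Measure (EuclideanSpace ℝ (Fin (m + 1)))) K ≤ symv volume K' :=
      (ENNReal.mul_le_mul_iff_right hκ0 hκt).mp p3
    rw [symv_zero _ _ c1, symv_zero _ _ c3] at p4
    refine ⟨?_, hvol, p4⟩
    unfold cen at c3
    rcases smul_eq_zero.mp c3 with h | h
    · exfalso
      rw [inv_eq_zero, ENNReal.toReal_eq_zero_iff] at h
      rcases h with h | h
      · exact hv' h
      · exact hK'.measure_lt_top.ne h
    · exact h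

end Pool.Agent.H619.CS
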